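import Mathlib
import Pool.Agent.K1H76.HB.Stm

set_option autoImplicit false

namespace Pool.Agent.K1H80.HB

open Matrix Complex Pool.Agent.K1H76.HB
open scoped ComplexOrder

theorem diagU (h : M2) (hh : h.IsHermitian) : ∃ (U : M2) (e : Fin 2 → ℝ), Uᴴ * U = 1 ∧ U * Uᴴ = 1 ∧
    h = U * diagonal (fun i => (e i : ℂ)) * Uᴴ ∧ (h.PosDef → ∀ i, 0 < e i) := by
  refine ⟨hh.eigenvectorUnitary, hh.eigenvalues, ?_, ?_, ?_, ?_⟩
  · exact Unitary.coe_star_mul_self hh.eigenvectorUnitary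
  · exact Unitary.coe_mul_star_self hh.eigenvectorUnitary
  · have := hh.spectral_theorem
    rw [Unitary.conjStarAlgAut_apply] at this
    exact this
  · intro hp i
    exact (hh.posDef_iff_eigenvalues_pos.1 hp) i

theorem factor (h : M2) (hp : h.PosDef) : ∃ B Bi : M2, B * Bi = 1 ∧ Bi * B = 1 ∧ h = Bᴴ * B := by
  obtain ⟨U, e, u1, u2, u3, u4⟩ := diagU h hp.isHermitian
  have he := u4 hp
  have hs : ∀ i, (Real.sqrt (e i) : ℂ) * (Real.sqrt (e i) : ℂ) = (e i : ℂ) := by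
    intro i
    rw [← Complex.ofReal_mul, Real.mul_self_sqrt (he i).le]
  have hs0 : ∀ i, (Real.sqrt (e i) : ℂ) ≠ 0 := by
    intro i
    exact_mod_cast (Real.sqrt_pos.2 (he i)).ne'
  have d1 : diagonal (fun i => (Real.sqrt (e i) : ℂ)) * diagonal (fun i => (Real.sqrt (e i) : ℂ)⁻¹) = (1 : M2) := by
    rw [diagonal_mul_diagonal, ← diagonal_one]
    congr 1
    funext i
    exact mul_inv_cancel₀ (hs0 i)
  have d2 : diagonal (fun i => (Real.sqrt (e i) : ℂ)⁻¹) * diagonal (fun i => (Real.sqrt (e i) : ℂ)) = (1 : M2) := by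
    rw [diagonal_mul_diagonal, ← diagonal_one]
    congr 1
    funext i
    exact inv_mul_cancel₀ (hs0 i)
  have d3 : diagonal (fun i => (Real.sqrt (e i) : ℂ)) * diagonal (fun i => (Real.sqrt (e i) : ℂ)) =
      (diagonal (fun i => (e i : ℂ)) : M2) := by
    rw [diagonal_mul_diagonal]
    congr 1
    funext i
    exact hs i
  have d4 : (diagonal (fun i => (Real.sqrt (e i) : ℂ)) : M2)ᴴ = diagonal (fun i => (Real.sqrt (e i) : ℂ)) := by
    rw [diagonal_conjTranspose]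
    congr 1
    funext i
    simp
  refine ⟨diagonal (fun i => (Real.sqrt (e i) : ℂ)) * Uᴴ, U * diagonal (fun i => (Real.sqrt (e i) : ℂ)⁻¹), ?_, ?_, ?_⟩
  · calc diagonal (fun i => (Real.sqrt (e i) : ℂ)) * Uᴴ * (U * diagonal (fun i => (Real.sqrt (e i) : ℂ)⁻¹))
        = diagonal (fun i => (Real.sqrt (e i) : ℂ)) * (Uᴴ * U) * diagonal (fun i => (Real.sqrt (e i) : ℂ)⁻¹) := by
          simp only [Matrix.mul_assoc]
      _ = 1 := by rw [u1, Matrix.mul_one, d1]
  · calc U * diagonal (fun i => (Real.sqrt (e i) : ℂ)⁻¹) * (diagonal (fun i => (Real.sqrt (e i) : ℂ)) * Uᴴ)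
        = U * (diagonal (fun i => (Real.sqrt (e i) : ℂ)⁻¹) * diagonal (fun i => (Real.sqrt (e i) : ℂ))) * Uᴴ := by
          simp only [Matrix.mul_assoc]
      _ = 1 := by rw [d2, Matrix.mul_one, u2]
  · rw [conjTranspose_mul, conjTranspose_conjTranspose, d4, u3]
    calc U * diagonal (fun i => (e i : ℂ)) * Uᴴ = U * (diagonal (fun i => (Real.sqrt (e i) : ℂ)) *
          diagonal (fun i => (Real.sqrt (e i) : ℂ))) * Uᴴ := by rw [d3]
      _ = _ := by simp only [Matrix.mul_assoc]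

theorem t_PS : S_PS := by
  intro h₁ h₂ X p1 p2
  obtain ⟨B, Bi, b1, b2, b3⟩ := factor h₁ p1
  have h1 : (X * h₂⁻¹ * Xᴴ).PosSemidef := p2.inv.posSemidef.mul_mul_conjTranspose_same X
  have h2 : (B * (X * h₂⁻¹ * Xᴴ) * Bᴴ).PosSemidef := h1.mul_mul_conjTranspose_same B
  have h3 : (X * (h₂⁻¹ * Xᴴ * h₁)).trace = (B * (X * h₂⁻¹ * Xᴴ) * Bᴴ).trace := by
    rw [b3]
    have e1 : X * (h₂⁻¹ * Xᴴ * (Bᴴ * B)) = (X * h₂⁻¹ * Xᴴ * Bᴴ) * B := by simp only [Matrix.mul_assoc]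
    rw [e1, trace_mul_comm]
    simp only [Matrix.mul_assoc]
  rw [h3]
  exact (Complex.le_def.1 h2.trace_nonneg).1

/-- simultaneous diagonalization -/
theorem simul (h1 h2 : M2) (p1 : h1.PosDef) (p2 : h2.PosDef) : ∃ (P Q : M2) (e : Fin 2 → ℝ),
    P * Q = 1 ∧ Q * P = 1 ∧ (∀ i, 0 < e i) ∧ h1 = Qᴴ * Q ∧
    h2 = Qᴴ * diagonal (fun i => (e i : ℂ)) * Q := by
  obtain ⟨B, Bi, b1, b2, b3⟩ := factor h1 p1
  have hc1 : Bᴴ * Biᴴ = 1 := by rw [← conjTranspose_mul, b2, conjTranspose_one]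
  have hinj : Function.Injective Bi.mulVec := by
    intro v w hvw
    have := congrArg B.mulVec hvw
    rw [mulVec_mulVec, mulVec_mulVec, b1, one_mulVec, one_mulVec] at this
    exact this
  have p3 : (Biᴴ * h2 * Bi).PosDef := p2.conjTranspose_mul_mul_same hinj
  obtain ⟨V, e, v1, v2, v3, v4⟩ := diagU _ p3.isHermitian
  refine ⟨Bi * V, Vᴴ * B, e, ?_, ?_, v4 p3, ?_, ?_⟩
  · calc Bi * V * (Vᴴ * B) = Bi * (V * Vᴴ) * B := by simp only [Matrix.mul_assoc]
      _ = 1 := by rw [v2, Matrix.mul_one, b2]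
  · calc Vᴴ * B * (Bi * V) = Vᴴ * (B * Bi) * V := by simp only [Matrix.mul_assoc]
      _ = 1 := by rw [b1, Matrix.mul_one, v1]
  · rw [conjTranspose_mul, conjTranspose_conjTranspose, b3]
    calc Bᴴ * B = Bᴴ * (V * Vᴴ) * B := by rw [v2, Matrix.mul_one]
      _ = _ := by simp only [Matrix.mul_assoc]
  · rw [conjTranspose_mul, conjTranspose_conjTranspose]
    calc h2 = (Bᴴ * Biᴴ) * h2 * (Bi * B) := by rw [hc1, b2, Matrix.one_mul, Matrix.mul_one]
      _ = Bᴴ * (Biᴴ * h2 * Bi) * B := by simp only [Matrix.mul_assoc]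
      _ = Bᴴ * (V * diagonal (fun i => (e i : ℂ)) * Vᴴ) * B := by rw [← v3]
      _ = _ := by simp only [Matrix.mul_assoc]

theorem adj_conj (P Q D D' A' : M2) (h1 : P * Q = 1) (h2 : Q * P = 1) (hD : D * D' = 1) :
    adj (Qᴴ * D * Q) (P * A' * Q) = P * (D' * A'ᴴ * D) * Q := by
  have c1 : Pᴴ * Qᴴ = 1 := by rw [← conjTranspose_mul, h2, conjTranspose_one]
  have c2 : Qᴴ * Pᴴ = 1 := by rw [← conjTranspose_mul, h1, conjTranspose_one]
  have hinv : (Qᴴ * D * Q)⁻¹ = P * D' * Pᴴ := by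
    apply Matrix.inv_eq_right_inv
    calc Qᴴ * D * Q * (P * D' * Pᴴ) = Qᴴ * (D * ((Q * P) * D')) * Pᴴ := by simp only [Matrix.mul_assoc]
      _ = 1 := by rw [h2, Matrix.one_mul, hD, Matrix.mul_one, c2]
  unfold adj
  rw [hinv, conjTranspose_mul, conjTranspose_mul]
  calc P * D' * Pᴴ * (Qᴴ * (A'ᴴ * Pᴴ)) * (Qᴴ * D * Q) =
      P * D' * ((Pᴴ * Qᴴ) * (A'ᴴ * ((Pᴴ * Qᴴ) * D))) * Q := by simp only [Matrix.mul_assoc]
    _ = _ := by rw [c1, Matrix.one_mul, Matrix.one_mul]; simp only [Matrix.mul_assoc]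

theorem trace_conj (P Q Y : M2) (h2 : Q * P = 1) : (P * Y * Q).trace = Y.trace := by
  rw [trace_mul_comm, ← Matrix.mul_assoc, h2, Matrix.one_mul]

theorem com_conj (P Q D D' A' : M2) (h1 : P * Q = 1) (h2 : Q * P = 1) (hD : D * D' = 1) :
    com (Qᴴ * D * Q) (P * A' * Q) = P * (A' * (D' * A'ᴴ * D) - (D' * A'ᴴ * D) * A') * Q := by
  unfold com
  rw [adj_conj P Q D D' A' h1 h2 hD]
  have e1 : ∀ Y Z : M2, P * Y * Q * (P * Z * Q) = P * (Y * Z) * Q := by
    intro Y Z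
    calc P * Y * Q * (P * Z * Q) = P * (Y * ((Q * P) * Z)) * Q := by simp only [Matrix.mul_assoc]
      _ = _ := by rw [h2, Matrix.one_mul]
  rw [e1, e1, Matrix.mul_sub, Matrix.sub_mul]

/-- the normal form of all the traces -/
theorem nf (h1 h2 A : M2) (p1 : h1.PosDef) (p2 : h2.PosDef) (d1 : h1.det = 1) (d2 : h2.det = 1)
    (hA : A.trace = 0) : ∃ l m x y z : ℝ, 0 < l ∧ 0 < m ∧ l * m = 1 ∧ 0 ≤ x ∧ 0 ≤ y ∧ 0 ≤ z ∧
    (h1⁻¹ * h2).trace.re = l + m ∧ (A * adj h1 A).trace.re = 2 * x + y + z ∧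
    (A * adj h2 A).trace.re = 2 * x + l ^ 2 * y + m ^ 2 * z ∧
    (h1⁻¹ * h2 * com h1 A).trace.re = (l - m) * (y - z) ∧
    (h1⁻¹ * h2 * com h2 A).trace.re = (l - m) * (l ^ 2 * y - m ^ 2 * z) := by
  obtain ⟨P, Q, e, q1, q2, he, k1, k2⟩ := simul h1 h2 p1 p2
  set D : M2 := diagonal (fun i => (e i : ℂ)) with hD
  have c1 : Pᴴ * Qᴴ = 1 := by rw [← conjTranspose_mul, q2, conjTranspose_one]
  have c2 : Qᴴ * Pᴴ = 1 := by rw [← conjTranspose_mul, q1, conjTranspose_one]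
  have hdet : (e 0 : ℂ) * (e 1 : ℂ) = 1 := by
    have e1 : (Qᴴ).det * Q.det = 1 := by rw [← det_mul, ← k1, d1]
    have e2 : (Qᴴ).det * D.det * Q.det = 1 := by rw [← det_mul, ← det_mul, ← k2, d2]
    have e3 : D.det = (e 0 : ℂ) * (e 1 : ℂ) := by rw [hD, det_diagonal, Fin.prod_univ_two]
    rw [← e3]
    calc D.det = D.det * ((Qᴴ).det * Q.det) := by rw [e1, mul_one]
      _ = (Qᴴ).det * D.det * Q.det := by ring
      _ = 1 := e2
  have hdetR : e 0 * e 1 = 1 := by exact_mod_cast hdet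
  set D' : M2 := diagonal ![(e 1 : ℂ), (e 0 : ℂ)] with hD'
  have hDD : D * D' = 1 := by
    rw [hD, hD', diagonal_mul_diagonal, ← diagonal_one]
    congr 1
    funext i
    fin_cases i
    · simpa using hdet
    · simpa [mul_comm] using hdet
  set A' : M2 := Q * A * P with hA'
  have hAA : A = P * A' * Q := by
    rw [hA']
    calc A = (P * Q) * A * (P * Q) := by rw [q1, Matrix.one_mul, Matrix.mul_one]
      _ = _ := by simp only [Matrix.mul_assoc]
  have htr : A'.trace = 0 := by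
    have : A.trace = A'.trace := by rw [hAA]; exact trace_conj P Q A' q2
    rw [← this, hA]
  have hd : A' 1 1 = - A' 0 0 := by
    rw [trace_fin_two] at htr
    linear_combination htr
  have k1' : h1 = Qᴴ * 1 * Q := by rw [Matrix.mul_one, k1]
  have hinv1 : h1⁻¹ = P * Pᴴ := by
    apply Matrix.inv_eq_right_inv
    rw [k1]
    calc Qᴴ * Q * (P * Pᴴ) = Qᴴ * ((Q * P) * Pᴴ) := by simp only [Matrix.mul_assoc]
      _ = 1 := by rw [q2, Matrix.one_mul, c2]
  have hH : h1⁻¹ * h2 = P * D * Q := by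
    rw [hinv1, k2]
    calc P * Pᴴ * (Qᴴ * D * Q) = P * ((Pᴴ * Qᴴ) * D) * Q := by simp only [Matrix.mul_assoc]
      _ = _ := by rw [c1, Matrix.one_mul]
  have hadj1 : adj h1 A = P * (A'ᴴ) * Q := by
    rw [k1', hAA, adj_conj P Q 1 1 A' q1 q2 (Matrix.one_mul 1), Matrix.one_mul, Matrix.mul_one]
  have hadj2 : adj h2 A = P * (D' * A'ᴴ * D) * Q := by
    rw [k2, hAA, adj_conj P Q D D' A' q1 q2 hDD]
  have hcom1 : com h1 A = P * (A' * A'ᴴ - A'ᴴ * A') * Q := by
    rw [k1', hAA, com_conj P Q 1 1 A' q1 q2 (Matrix.one_mul 1), Matrix.one_mul, Matrix.mul_one]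
  have hcom2 : com h2 A = P * (A' * (D' * A'ᴴ * D) - (D' * A'ᴴ * D) * A') * Q := by
    rw [k2, hAA, com_conj P Q D D' A' q1 q2 hDD]
  have emul : ∀ Y Z : M2, P * Y * Q * (P * Z * Q) = P * (Y * Z) * Q := by
    intro Y Z
    calc P * Y * Q * (P * Z * Q) = P * (Y * ((Q * P) * Z)) * Q := by simp only [Matrix.mul_assoc]
      _ = _ := by rw [q2, Matrix.one_mul]
  refine ⟨e 0, e 1, Complex.normSq (A' 0 0), Complex.normSq (A' 0 1), Complex.normSq (A' 1 0), he 0, he 1, hdetR,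
    Complex.normSq_nonneg _, Complex.normSq_nonneg _, Complex.normSq_nonneg _, ?_, ?_, ?_, ?_, ?_⟩
  · rw [hH, trace_conj P Q _ q2, hD, trace_diagonal, Fin.sum_univ_two]
    simp
  · rw [hadj1]
    conv_lhs => rw [hAA]
    rw [emul, trace_conj P Q _ q2]
    simp only [trace_fin_two, mul_apply, Fin.sum_univ_two, conjTranspose_apply, hd]
    simp [Complex.normSq_apply]
    ring
  · rw [hadj2]
    conv_lhs => rw [hAA]
    rw [emul, trace_conj P Q _ q2]
    simp only [trace_fin_two, mul_apply, Fin.sum_univ_two, conjTranspose_apply, hd, hD, hD', diagonal_apply]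
    simp [Complex.normSq_apply]
    linear_combination (2 * ((A' 0 0).re * (A' 0 0).re + (A' 0 0).im * (A' 0 0).im)) * hdetR
  · rw [hH, hcom1, emul, trace_conj P Q _ q2]
    simp only [trace_fin_two, mul_apply, Matrix.sub_apply, Fin.sum_univ_two, conjTranspose_apply, hd, hD, hD', diagonal_apply]
    simp [Complex.normSq_apply]
    ring
  · rw [hH, hcom2, emul, trace_conj P Q _ q2]
    simp only [trace_fin_two, mul_apply, Matrix.sub_apply, Fin.sum_univ_two, conjTranspose_apply, hd, hD, hD', diagonal_apply]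
    simp [Complex.normSq_apply]
    ring

theorem Qt_eq (s₁ s₂ : ℝ) (h₁ h₂ A : M2) : Qt s₁ s₂ h₁ h₂ A =
    s₂ ^ 2 * (h₁⁻¹ * h₂ * com h₂ A).trace.re - s₁ ^ 2 * (h₁⁻¹ * h₂ * com h₁ A).trace.re := by
  unfold Qt
  rw [Matrix.mul_sub, Matrix.mul_smul, Matrix.mul_smul, trace_sub, trace_smul, trace_smul, Complex.sub_re,
    smul_eq_mul, smul_eq_mul, ← Complex.ofReal_pow, ← Complex.ofReal_pow, Complex.re_ofReal_mul, Complex.re_ofReal_mul]

/-- the real inequalities -/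
theorem real_part (s₁ s₂ l m x y z : ℝ) (hs : 0 < s₁) (hss : s₁ < s₂) (hl : 0 < l) (hm : 0 < m)
    (hlm : l * m = 1) (hx : 0 ≤ x) (hy : 0 ≤ y) (hz : 0 ≤ z) :
    (l + m ≤ s₂ / s₁ + s₁ / s₂ → s₁ ^ 2 * (2 * x + y + z) ≤ s₂ ^ 2 * (2 * x + l ^ 2 * y + m ^ 2 * z)) ∧
    (s₂ / s₁ + s₁ / s₂ < l + m →
      0 ≤ s₂ ^ 2 * ((l - m) * (l ^ 2 * y - m ^ 2 * z)) - s₁ ^ 2 * ((l - m) * (y - z)) ∧
      (s₂ ^ 2 * ((l - m) * (l ^ 2 * y - m ^ 2 * z)) - s₁ ^ 2 * ((l - m) * (y - z)) = 0 →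
        s₁ ^ 2 * (2 * x + y + z) ≤ s₂ ^ 2 * (2 * x + l ^ 2 * y + m ^ 2 * z))) := by
  have hs2 : 0 < s₂ := hs.trans hss
  set r : ℝ := s₂ / s₁ with hr
  have hr1 : 1 < r := by rw [hr, one_lt_div hs]; exact hss
  have hr0 : 0 < r := by linarith
  have hri : s₁ / s₂ = 1 / r := by rw [hr, one_div_div]
  have hs2r : s₂ = s₁ * r := by rw [hr]; field_simp
  have hm' : m = 1 / l := by field_simp; linarith
  have hrr : r * (1 / r) = 1 := mul_one_div_cancel hr0.ne'
  have hi0 : 0 < 1 / r := by positivity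
  have hi1 : 1 / r < 1 := by rw [div_lt_one hr0]; exact hr1
  have hsx : s₁ ^ 2 * x ≤ s₂ ^ 2 * x := by
    have : s₁ ^ 2 ≤ s₂ ^ 2 := by nlinarith
    exact mul_le_mul_of_nonneg_right this hx
  rw [hri]
  constructor
  · intro h
    -- l, m >= 1/r
    have h1 : (l - r) * (l - 1 / r) ≤ 0 := by
      have : l * (l + m) ≤ l * (r + 1 / r) := mul_le_mul_of_nonneg_left h hl.le
      nlinarith
    have h2 : (m - r) * (m - 1 / r) ≤ 0 := by
      have : m * (l + m) ≤ m * (r + 1 / r) := mul_le_mul_of_nonneg_left h hm.le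
      nlinarith
    have h3 : 1 / r ≤ l := by
      by_contra hc
      push Not at hc
      nlinarith
    have h4 : 1 / r ≤ m := by
      by_contra hc
      push Not at hc
      nlinarith
    have h5 : 1 ≤ r * l := by
      calc 1 = r * (1 / r) := hrr.symm
        _ ≤ r * l := mul_le_mul_of_nonneg_left h3 hr0.le
    have h6 : 1 ≤ r * m := by
      calc 1 = r * (1 / r) := hrr.symm
        _ ≤ r * m := mul_le_mul_of_nonneg_left h4 hr0.le
    have h7 : s₁ ^ 2 ≤ s₂ ^ 2 * l ^ 2 := by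
      rw [hs2r]
      have : 1 ≤ (r * l) ^ 2 := by nlinarith
      nlinarith [mul_le_mul_of_nonneg_left this (by positivity : (0:ℝ) ≤ s₁ ^ 2)]
    have h8 : s₁ ^ 2 ≤ s₂ ^ 2 * m ^ 2 := by
      rw [hs2r]
      have : 1 ≤ (r * m) ^ 2 := by nlinarith
      nlinarith [mul_le_mul_of_nonneg_left this (by positivity : (0:ℝ) ≤ s₁ ^ 2)]
    nlinarith [mul_le_mul_of_nonneg_right h7 hy, mul_le_mul_of_nonneg_right h8 hz]
  · intro h
    have key : ((0 < l - m ∧ 0 < s₂ ^ 2 * l ^ 2 - s₁ ^ 2 ∧ 0 < s₁ ^ 2 - s₂ ^ 2 * m ^ 2) ∨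
        (l - m < 0 ∧ s₂ ^ 2 * l ^ 2 - s₁ ^ 2 < 0 ∧ s₁ ^ 2 - s₂ ^ 2 * m ^ 2 < 0)) := by
      have h1 : 0 < (l - r) * (l - 1 / r) := by
        have : l * (r + 1 / r) < l * (l + m) := mul_lt_mul_of_pos_left h hl
        nlinarith
      rcases lt_or_ge r l with h2 | h2
      · left
        have h3 : m < 1 / r := by
          rw [hm']
          exact one_div_lt_one_div_of_lt hr0 h2
        have h4 : r * m < 1 := by
          calc r * m < r * (1 / r) := mul_lt_mul_of_pos_left h3 hr0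
            _ = 1 := hrr
        refine ⟨by linarith, ?_, ?_⟩
        · rw [hs2r]
          have : 1 < (r * l) ^ 2 := by
            have : 1 < r * l := by nlinarith
            nlinarith
          nlinarith [mul_lt_mul_of_pos_left this (by positivity : (0:ℝ) < s₁ ^ 2)]
        · rw [hs2r]
          have : (r * m) ^ 2 < 1 := by
            have : 0 < r * m := by positivity
            nlinarith
          nlinarith [mul_lt_mul_of_pos_left this (by positivity : (0:ℝ) < s₁ ^ 2)]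
      · right
        have h3 : l < 1 / r := by
          by_contra hc
          push Not at hc
          nlinarith
        have h4 : r * l < 1 := by
          calc r * l < r * (1 / r) := mul_lt_mul_of_pos_left h3 hr0
            _ = 1 := hrr
        have h5 : r < m := by
          rw [hm', lt_div_iff₀ hl]
          exact h4
        refine ⟨by linarith, ?_, ?_⟩
        · rw [hs2r]
          have : (r * l) ^ 2 < 1 := by
            have : 0 < r * l := by positivity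
            nlinarith
          nlinarith [mul_lt_mul_of_pos_left this (by positivity : (0:ℝ) < s₁ ^ 2)]
        · rw [hs2r]
          have : 1 < (r * m) ^ 2 := by
            have : 1 < r * m := by nlinarith
            nlinarith
          nlinarith [mul_lt_mul_of_pos_left this (by positivity : (0:ℝ) < s₁ ^ 2)]
    have e1 : s₂ ^ 2 * ((l - m) * (l ^ 2 * y - m ^ 2 * z)) - s₁ ^ 2 * ((l - m) * (y - z)) =
        ((l - m) * (s₂ ^ 2 * l ^ 2 - s₁ ^ 2)) * y + ((l - m) * (s₁ ^ 2 - s₂ ^ 2 * m ^ 2)) * z := by ring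
    have k1 : 0 < (l - m) * (s₂ ^ 2 * l ^ 2 - s₁ ^ 2) := by
      rcases key with ⟨a, b, _⟩ | ⟨a, b, _⟩
      · exact mul_pos a b
      · exact mul_pos_of_neg_of_neg a b
    have k2 : 0 < (l - m) * (s₁ ^ 2 - s₂ ^ 2 * m ^ 2) := by
      rcases key with ⟨a, _, b⟩ | ⟨a, _, b⟩
      · exact mul_pos a b
      · exact mul_pos_of_neg_of_neg a b
    rw [e1]
    have k3 := mul_nonneg k1.le hy
    have k4 := mul_nonneg k2.le hz
    refine ⟨by linarith, fun h0 => ?_⟩
    have hy0 : y = 0 := by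
      have : ((l - m) * (s₂ ^ 2 * l ^ 2 - s₁ ^ 2)) * y = 0 := by linarith
      rcases mul_eq_zero.1 this with h | h
      · linarith
      · exact h
    have hz0 : z = 0 := by
      have : ((l - m) * (s₁ ^ 2 - s₂ ^ 2 * m ^ 2)) * z = 0 := by linarith
      rcases mul_eq_zero.1 this with h | h
      · linarith
      · exact h
    rw [hy0, hz0]
    nlinarith

theorem t_AG : S_AG := by
  intro s₁ s₂ h₁ h₂ A hs hss p1 p2 d1 d2 hA
  obtain ⟨l, m, x, y, z, hl, hm, hlm, hx, hy, hz, e1, e2, e3, e4, e5⟩ := nf h₁ h₂ A p1 p2 d1 d2 hA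
  have h := real_part s₁ s₂ l m x y z hs hss hl hm hlm hx hy hz
  rw [Qt_eq, e4, e5]
  unfold en
  rw [e1, e2, e3]
  exact h

end Pool.Agent.K1H80.HB
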